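import Pool.Agent.H68.GP.Targets

/-!
# MP_c62aed_lc, module COV of the board gp_modules (helper68)

There is a word far from all codewords.
-/

namespace Pool.Agent.H86.GP

open Finset Pool.Agent.H68.AC Pool.Agent.H68.GP

theorem t_COV : T_COV := by
  intro k n' t g G _ _ _ f hcard
  by_contra hcon
  push Not at hcon
  have hQ : 0 < Fintype.card G := Fintype.card_pos_iff.mpr ⟨0⟩
  -- g + 1 ≤ k
  by_cases hgk : k ≤ g
  · exact hcon 0 (fun b => (Finset.card_le_univ _).trans (by simpa using hgk))
  push Not at hgk
  -- the pieces
  let S : (Fin n' → G) × Finset (Fin k) → Finset (Fin k → G) := fun p =>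
    Fintype.piFinset (fun j => if j ∈ p.2 then {lin f p.1 j} else univ)
  have hcover : (univ : Finset (Fin k → G)) ⊆
      ((univ : Finset (Fin n' → G)) ×ˢ powersetCard (g + 1) (univ : Finset (Fin k))).biUnion S := by
    intro u _
    have hu := hcon u
    unfold FarW at hu
    push Not at hu
    obtain ⟨b, hb⟩ := hu
    obtain ⟨J, hJ, hJc⟩ := Finset.exists_subset_card_eq (Nat.succ_le_of_lt hb)
    rw [Finset.mem_biUnion]
    refine ⟨(b, J), ?_, ?_⟩
    · rw [Finset.mem_product, Finset.mem_powersetCard]
      exact ⟨mem_univ _, subset_univ _, hJc⟩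
    · rw [Fintype.mem_piFinset]
      intro j
      by_cases hj : j ∈ J
      · simp only [hj, if_true, Finset.mem_singleton]
        have := hJ hj
        rw [Finset.mem_filter] at this
        exact this.2
      · simp only [hj, if_false]
        exact mem_univ _
  have hS : ∀ p ∈ (univ : Finset (Fin n' → G)) ×ˢ powersetCard (g + 1) (univ : Finset (Fin k)),
      (S p).card ≤ Fintype.card G ^ (k - (g + 1)) := by
    intro p hp
    rw [Finset.mem_product, Finset.mem_powersetCard] at hp
    have hc := hp.2.2
    show (Fintype.piFinset _).card ≤ _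
    rw [Fintype.card_piFinset]
    have h1 : ∀ j, (if j ∈ p.2 then ({lin f p.1 j} : Finset G) else univ).card =
        if j ∈ p.2 then 1 else Fintype.card G := by
      intro j
      split_ifs
      · simp
      · rfl
    simp only [h1]
    rw [Finset.prod_ite, Finset.prod_const_one, one_mul, Finset.prod_const]
    have h2 : (univ.filter (fun j => j ∉ p.2)).card = k - (g + 1) := by
      have h3 : univ.filter (fun j => j ∉ p.2) = p.2ᶜ := by
        ext j
        simp
      rw [h3, Finset.card_compl, hc, Fintype.card_fin]
    rw [h2]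
  have h1 := Finset.card_le_card hcover
  have h2 := h1.trans (Finset.card_biUnion_le_card_mul _ _ _ hS)
  rw [Finset.card_univ, Finset.card_product, Finset.card_univ, Finset.card_powersetCard,
    Finset.card_univ, Fintype.card_fun, Fintype.card_fun, Fintype.card_fin, Fintype.card_fin] at h2
  have h3 : k.choose (g + 1) ≤ 2 ^ k := Nat.choose_le_two_pow k (g + 1)
  have h4 : Fintype.card G ^ n' * k.choose (g + 1) * Fintype.card G ^ (k - (g + 1)) <
      Fintype.card G ^ (g + 1) * Fintype.card G ^ (k - (g + 1)) := by
    apply Nat.mul_lt_mul_of_pos_right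
    · exact lt_of_le_of_lt (Nat.mul_le_mul_left _ h3) hcard
    · exact pow_pos hQ _
  rw [← pow_add, Nat.add_sub_cancel' hgk] at h4
  omega

end Pool.Agent.H86.GP
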