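import Pool.Agent.H68.GP.Targets

/-!
# MP_c62aed_lc, module JH of the board gp_modules (helper68)

Products and polynomials of functions of few coordinates.
-/

namespace Pool.Agent.H86.GP

open Finset Pool.Agent.H68.AC Pool.Agent.H68.GP

theorem JH_mono (F : Type) [CommRing F] (k : ℕ) (G : Type) {a b : ℕ} (hab : a ≤ b) :
    JH F k G a ≤ JH F k G b := by
  unfold JH
  apply Submodule.span_mono
  rintro f ⟨H, hH, hf⟩
  exact ⟨H, hH.trans hab, hf⟩

theorem JH_const (F : Type) [CommRing F] (k : ℕ) (G : Type) (c : F) (h : ℕ) :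
    (fun _ => c) ∈ JH F k G h := by
  unfold JH
  apply Submodule.subset_span
  exact ⟨∅, by simp, fun _ _ _ => rfl⟩

theorem JH_mul (F : Type) [CommRing F] (k : ℕ) (G : Type) {a b : ℕ} {f g : (Fin k → G) → F}
    (hf : f ∈ JH F k G a) (hg : g ∈ JH F k G b) : f * g ∈ JH F k G (a + b) := by
  unfold JH at hf hg
  induction hf, hg using Submodule.span_induction₂ with
  | mem_mem f g hf hg =>
    obtain ⟨H, hH, hf⟩ := hf
    obtain ⟨H', hH', hg⟩ := hg
    unfold JH
    apply Submodule.subset_span
    classical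
    refine ⟨H ∪ H', (Finset.card_union_le _ _).trans (by omega), ?_⟩
    intro u u' huu
    rw [Pi.mul_apply, Pi.mul_apply, hf u u' (fun j hj => huu j (Finset.mem_union_left _ hj)),
      hg u u' (fun j hj => huu j (Finset.mem_union_right _ hj))]
  | zero_left y _ => rw [zero_mul]; exact Submodule.zero_mem _
  | zero_right x _ => rw [mul_zero]; exact Submodule.zero_mem _
  | add_left x y z _ _ _ h1 h2 => rw [add_mul]; exact Submodule.add_mem _ h1 h2
  | add_right x y z _ _ _ h1 h2 => rw [mul_add]; exact Submodule.add_mem _ h1 h2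
  | smul_left r x y _ _ h => rw [smul_mul_assoc]; exact Submodule.smul_mem _ _ h
  | smul_right r x y _ _ h => rw [mul_smul_comm]; exact Submodule.smul_mem _ _ h

theorem JH_pow (F : Type) [CommRing F] (k : ℕ) (G : Type) {h : ℕ} {f : (Fin k → G) → F}
    (hf : f ∈ JH F k G h) (n : ℕ) : (fun u => f u ^ n) ∈ JH F k G (n * h) := by
  induction n with
  | zero =>
    simp only [pow_zero]
    exact JH_const F k G 1 _
  | succ n ih =>
    have h1 := JH_mul F k G ih hf
    have h2 : (fun u => f u ^ (n + 1)) = (fun u => f u ^ n) * f := by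
      funext u
      simp [pow_succ]
    rw [h2, Nat.succ_mul]
    exact h1

theorem JH_prod (F : Type) [CommRing F] (k : ℕ) (G : Type) {h : ℕ} {κ : Type}
    (v : κ → (Fin k → G) → F) (hv : ∀ i, v i ∈ JH F k G h) (e : κ → ℕ) (s : Finset κ) :
    (fun u => ∏ i ∈ s, v i u ^ e i) ∈ JH F k G ((∑ i ∈ s, e i) * h) := by
  classical
  induction s using Finset.induction_on with
  | empty =>
    simp only [Finset.prod_empty]
    exact JH_const F k G 1 _
  | insert a s ha ih =>
    have h1 := JH_mul F k G (JH_pow F k G (hv a) (e a)) ih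
    have h2 : (fun u => ∏ i ∈ insert a s, v i u ^ e i) =
        (fun u => v a u ^ e a) * (fun u => ∏ i ∈ s, v i u ^ e i) := by
      funext u
      rw [Finset.prod_insert ha]
      rfl
    rw [h2, Finset.sum_insert ha, add_mul]
    exact h1

theorem t_JH : T_JH := by
  intro F _ k G
  refine ⟨fun a b hab => JH_mono F k G hab, fun a b f g hf hg => JH_mul F k G hf hg, ?_⟩
  intro κ v h D P hv hP
  have h1 : (fun u => MvPolynomial.eval (fun i => v i u) P) =
      ∑ d ∈ P.support, (fun u => P.coeff d * ∏ i ∈ d.support, v i u ^ d i) := by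
    funext u
    rw [MvPolynomial.eval_eq, Finset.sum_apply]
  rw [h1]
  apply Submodule.sum_mem
  intro d hd
  have h2 : (fun u => P.coeff d * ∏ i ∈ d.support, v i u ^ d i) =
      P.coeff d • (fun u => ∏ i ∈ d.support, v i u ^ d i) := by
    funext u
    rfl
  rw [h2]
  apply Submodule.smul_mem
  have h3 : ∑ i ∈ d.support, d i ≤ D := by
    have := MvPolynomial.le_totalDegree hd
    rw [Finsupp.sum] at this
    exact this.trans hP
  exact JH_mono F k G (Nat.mul_le_mul_right h h3) (JH_prod F k G v hv d d.support)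

end Pool.Agent.H86.GP
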