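import Pool.Agent.H68.GP.Targets

/-!
# MP_c62aed_lc, module JS of the board gp_modules (helper68)

Functions of few coordinates do not distinguish the code from its cosets.
-/

namespace Pool.Agent.H86.GP

open Finset Pool.Agent.H68.AC Pool.Agent.H68.GP

theorem lin_add {k n' t : ℕ} {G : Type} [AddCommGroup G] (f : Fin k → Fin t → Fin n')
    (b b' : Fin n' → G) (j : Fin k) : lin f (b + b') j = lin f b j + lin f b' j := by
  simp only [lin, Pi.add_apply, Finset.sum_add_distrib]

theorem t_JS : T_JS := by
  intro F _ k n' t h G _ _ f u₀ g hS hg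
  unfold JH at hg
  induction hg using Submodule.span_induction with
  | mem g hg =>
    obtain ⟨H, hH, hdep⟩ := hg
    obtain ⟨b', hb'⟩ := hS H hH u₀
    have h1 : ∀ b : Fin n' → G, g (u₀ + lin f b) = g (lin f (b + b')) := by
      intro b
      apply hdep
      intro j hj
      rw [lin_add, hb' j hj, Pi.add_apply, add_comm]
    simp only [h1]
    exact (Equiv.sum_comp (Equiv.addRight b') (fun b => g (lin f b))).symm
  | zero => simp
  | add x y _ _ hx hy =>
    simp only [Pi.add_apply, Finset.sum_add_distrib, hx, hy]
  | smul a x _ hx =>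
    simp only [Pi.smul_apply, smul_eq_mul, ← Finset.mul_sum, hx]

end Pool.Agent.H86.GP
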